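import Pool.Agent.N929.AC.StmP

/-!
# Primitives of power series on star shaped domains (project AC, helper353)
-/

set_option autoImplicit false

namespace Pool.Agent.N353.AC

open Filter Topology MeasureTheory
open Pool.Agent.N929.AC

section

variable {Ω : Set ℂ} {f : ℂ → ℂ}

theorem contOn {g : ℂ → ℂ} (hg : ContinuousOn g Ω)
    (hs : ∀ z ∈ Ω, ∀ t : ℝ, 0 ≤ t → t ≤ 1 → (t : ℂ) * z ∈ Ω) {z : ℂ} (hz : z ∈ Ω) :
    ContinuousOn (fun t : ℝ => g ((t : ℂ) * z)) (Set.Icc 0 1) := by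
  refine hg.comp ?_ fun t ht => hs z hz t ht.1 ht.2
  exact (Complex.continuous_ofReal.mul continuous_const).continuousOn

theorem uIoc_sub : Set.uIoc (0 : ℝ) 1 ⊆ Set.Icc 0 1 := by
  rw [Set.uIoc_of_le zero_le_one]
  exact Set.Ioc_subset_Icc_self

theorem meas {g : ℝ → ℂ} (hg : ContinuousOn g (Set.Icc 0 1)) :
    AEStronglyMeasurable g (volume.restrict (Set.uIoc (0 : ℝ) 1)) :=
  (hg.mono uIoc_sub).aestronglyMeasurable measurableSet_uIoc

theorem inty {g : ℝ → ℂ} (hg : ContinuousOn g (Set.Icc 0 1)) :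
    IntervalIntegrable g volume 0 1 := by
  apply ContinuousOn.intervalIntegrable
  rw [Set.uIcc_of_le zero_le_one]
  exact hg

/-- the primitive -/
noncomputable def P (f : ℂ → ℂ) (z : ℂ) : ℂ := z * ∫ t in (0 : ℝ)..1, f ((t : ℂ) * z)

theorem leibniz (hΩ : IsOpen Ω) (hs : ∀ z ∈ Ω, ∀ t : ℝ, 0 ≤ t → t ≤ 1 → (t : ℂ) * z ∈ Ω)
    (hf : DifferentiableOn ℂ f Ω) {z₀ : ℂ} (hz : z₀ ∈ Ω) :
    HasDerivAt (fun z : ℂ => ∫ t in (0 : ℝ)..1, f ((t : ℂ) * z))
      (∫ t in (0 : ℝ)..1, deriv f ((t : ℂ) * z₀) * (t : ℂ)) z₀ := by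
  obtain ⟨r, hr, hrs⟩ := Metric.nhds_basis_closedBall.mem_iff.1 (hΩ.mem_nhds hz)
  have hd : ContinuousOn (deriv f) Ω := (hf.deriv hΩ).continuousOn
  have hK : IsCompact ((fun p : ℝ × ℂ => (p.1 : ℂ) * p.2) ''
      (Set.Icc (0 : ℝ) 1 ×ˢ Metric.closedBall z₀ r)) := by
    refine (isCompact_Icc.prod (isCompact_closedBall z₀ r)).image ?_
    exact (Complex.continuous_ofReal.comp continuous_fst).mul continuous_snd
  have hKs : ((fun p : ℝ × ℂ => (p.1 : ℂ) * p.2) ''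
      (Set.Icc (0 : ℝ) 1 ×ˢ Metric.closedBall z₀ r)) ⊆ Ω := by
    rintro _ ⟨⟨t, w⟩, ⟨ht, hw⟩, rfl⟩
    exact hs w (hrs hw) t ht.1 ht.2
  obtain ⟨C, hC⟩ := hK.exists_bound_of_continuousOn (hd.mono hKs)
  have hball : Metric.ball z₀ r ⊆ Ω := Metric.ball_subset_closedBall.trans hrs
  refine (intervalIntegral.hasDerivAt_integral_of_dominated_loc_of_deriv_le (𝕜 := ℂ)
    (F := fun (z : ℂ) (t : ℝ) => f ((t : ℂ) * z))
    (F' := fun (z : ℂ) (t : ℝ) => deriv f ((t : ℂ) * z) * (t : ℂ)) (bound := fun _ => C)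
    (Metric.ball_mem_nhds z₀ hr) ?_ ?_ ?_ ?_ ?_ ?_).2
  · filter_upwards [Metric.ball_mem_nhds z₀ hr] with z hz'
    exact meas (contOn hf.continuousOn hs (hball hz'))
  · exact inty (contOn hf.continuousOn hs hz)
  · exact meas ((contOn hd hs hz).mul Complex.continuous_ofReal.continuousOn)
  · refine Eventually.of_forall fun t ht z hz' => ?_
    have ht' := uIoc_sub ht
    have h1 := hC ((t : ℂ) * z) ⟨(t, z), ⟨ht', Metric.ball_subset_closedBall hz'⟩, rfl⟩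
    rw [norm_mul, Complex.norm_real, Real.norm_of_nonneg ht'.1]
    calc ‖deriv f ((t : ℂ) * z)‖ * t ≤ ‖deriv f ((t : ℂ) * z)‖ * 1 :=
          mul_le_mul_of_nonneg_left ht'.2 (norm_nonneg _)
      _ ≤ C := by rw [mul_one]; exact h1
  · exact intervalIntegrable_const
  · refine Eventually.of_forall fun t ht z hz' => ?_
    have ht' := uIoc_sub ht
    have h1 : HasDerivAt f (deriv f ((t : ℂ) * z)) ((t : ℂ) * z) :=
      (hf.differentiableAt (hΩ.mem_nhds (hs z (hball hz') t ht'.1 ht'.2))).hasDerivAt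
    have h2 : HasDerivAt (fun w : ℂ => (t : ℂ) * w) (t : ℂ) z := by
      simpa using (hasDerivAt_id z).const_mul (t : ℂ)
    exact h1.comp z h2

theorem ftc (hΩ : IsOpen Ω) (hs : ∀ z ∈ Ω, ∀ t : ℝ, 0 ≤ t → t ≤ 1 → (t : ℂ) * z ∈ Ω)
    (hf : DifferentiableOn ℂ f Ω) {z₀ : ℂ} (hz : z₀ ∈ Ω) :
    (∫ t in (0 : ℝ)..1, f ((t : ℂ) * z₀)) +
      z₀ * (∫ t in (0 : ℝ)..1, deriv f ((t : ℂ) * z₀) * (t : ℂ)) = f z₀ := by
  have hd : ContinuousOn (deriv f) Ω := (hf.deriv hΩ).continuousOn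
  have h1 : ∀ t ∈ Set.uIcc (0 : ℝ) 1, HasDerivAt (fun s : ℝ => (s : ℂ) * f ((s : ℂ) * z₀))
      (f ((t : ℂ) * z₀) + z₀ * (deriv f ((t : ℂ) * z₀) * (t : ℂ))) t := by
    intro t ht
    rw [Set.uIcc_of_le zero_le_one] at ht
    have h2 : HasDerivAt f (deriv f ((t : ℂ) * z₀)) ((t : ℂ) * z₀) :=
      (hf.differentiableAt (hΩ.mem_nhds (hs z₀ hz t ht.1 ht.2))).hasDerivAt
    have h3 : HasDerivAt (fun w : ℂ => w * z₀) z₀ (t : ℂ) := by
      simpa using (hasDerivAt_id (t : ℂ)).mul_const z₀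
    have h4 : HasDerivAt (fun w : ℂ => f (w * z₀)) (deriv f ((t : ℂ) * z₀) * z₀) (t : ℂ) :=
      h2.comp (t : ℂ) h3
    have h5 := ((hasDerivAt_id (t : ℂ)).mul h4).comp_ofReal
    refine h5.congr_deriv ?_
    simp only [id]
    ring
  have hc2 : ContinuousOn (fun t : ℝ => z₀ * (deriv f ((t : ℂ) * z₀) * (t : ℂ))) (Set.Icc 0 1) :=
    continuousOn_const.mul ((contOn hd hs hz).mul Complex.continuous_ofReal.continuousOn)
  have h2 := intervalIntegral.integral_eq_sub_of_hasDerivAt h1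
    ((inty (contOn hf.continuousOn hs hz)).add (inty hc2))
  rw [intervalIntegral.integral_add (inty (contOn hf.continuousOn hs hz)) (inty hc2),
    intervalIntegral.integral_const_mul] at h2
  rw [h2]
  simp

theorem hasDerivAt_P (hΩ : IsOpen Ω)
    (hs : ∀ z ∈ Ω, ∀ t : ℝ, 0 ≤ t → t ≤ 1 → (t : ℂ) * z ∈ Ω)
    (hf : DifferentiableOn ℂ f Ω) {z₀ : ℂ} (hz : z₀ ∈ Ω) : HasDerivAt (P f) (f z₀) z₀ := by
  have h1 := (hasDerivAt_id z₀).mul (leibniz hΩ hs hf hz)
  refine h1.congr_deriv ?_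
  simp only [id]
  rw [one_mul]
  exact ftc hΩ hs hf hz

theorem series (u : ℕ → ℂ) {R : ℝ}
    (hser : ∀ z ∈ Metric.ball (0 : ℂ) R, HasSum (fun n => u n * z ^ n) (f z)) {z : ℂ}
    (hz : z ∈ Metric.ball (0 : ℂ) R) :
    HasSum (fun n : ℕ => u n / ((n : ℂ) + 1) * z ^ (n + 1)) (P f z) := by
  have hb : ∀ t : ℝ, t ∈ Set.Icc (0 : ℝ) 1 → (t : ℂ) * z ∈ Metric.ball (0 : ℂ) R := by
    intro t ht
    rw [mem_ball_zero_iff] at hz ⊢
    rw [norm_mul, Complex.norm_real, Real.norm_of_nonneg ht.1]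
    exact (mul_le_of_le_one_left (norm_nonneg z) ht.2).trans_lt hz
  have hsum : Summable fun n => ‖u n * z ^ n‖ := (hser z hz).summable.norm
  have h1 := intervalIntegral.hasSum_integral_of_dominated_convergence (μ := volume)
    (a := (0 : ℝ)) (b := 1) (F := fun (n : ℕ) (t : ℝ) => u n * ((t : ℂ) * z) ^ n)
    (f := fun t : ℝ => f ((t : ℂ) * z)) (fun n _ => ‖u n * z ^ n‖) ?_ ?_ ?_ ?_ ?_
  · have h2 := h1.mul_left z
    have h3 : ∀ n : ℕ, z * (∫ t in (0 : ℝ)..1, u n * ((t : ℂ) * z) ^ n) =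
        u n / ((n : ℂ) + 1) * z ^ (n + 1) := by
      intro n
      have h4 : ∀ t : ℝ, u n * ((t : ℂ) * z) ^ n = (u n * z ^ n) * ((t ^ n : ℝ) : ℂ) := by
        intro t
        rw [mul_pow, Complex.ofReal_pow]
        ring
      simp only [h4]
      rw [intervalIntegral.integral_const_mul, intervalIntegral.integral_ofReal, integral_pow]
      have h5 : ((n : ℂ) + 1) ≠ 0 := Nat.cast_add_one_ne_zero n
      push_cast
      rw [one_pow, zero_pow (Nat.succ_ne_zero n), sub_zero]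
      field_simp
      ring
    simp only [h3] at h2
    exact h2
  · intro n
    exact (by fun_prop : Continuous fun t : ℝ => u n * ((t : ℂ) * z) ^ n).aestronglyMeasurable
  · intro n
    refine Eventually.of_forall fun t ht => ?_
    have ht' := uIoc_sub ht
    rw [norm_mul, norm_mul, norm_pow, norm_pow, norm_mul, Complex.norm_real,
      Real.norm_of_nonneg ht'.1]
    exact mul_le_mul_of_nonneg_left (pow_le_pow_left₀ (mul_nonneg ht'.1 (norm_nonneg z))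
      (mul_le_of_le_one_left (norm_nonneg z) ht'.2) n) (norm_nonneg _)
  · exact Eventually.of_forall fun t _ => hsum
  · exact intervalIntegrable_const
  · exact Eventually.of_forall fun t ht => hser _ (hb t (uIoc_sub ht))

end

theorem prim : S_PRIM := by
  intro Ω R u f hΩ hs hR hball hf hser
  exact ⟨P f, fun z hz => (hasDerivAt_P hΩ hs hf hz).differentiableAt.differentiableWithinAt,
    fun z hz => hasDerivAt_P hΩ hs hf hz, by simp [P], fun z hz => series u hser hz⟩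

end Pool.Agent.N353.AC
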